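import Mathlib
import Pool.Agent.X255.RH.Main

/-!
# Domains of the line for the values of functions at the roots of polynomials
-/

set_option autoImplicit false

open Polynomial Filter Topology
open scoped PeriodPair

namespace Pool.Agent.H46AR

/-- local independence implies independence in the form of `X255.RH` -/
theorem indep_of_loc {σ : Type} {V : Set ℂ} {f : σ → ℂ → ℂ} (hV : IsOpen V) (hne : V.Nonempty)
    (h : ∀ t ∈ V, Pool.Agent.Y124.LocInd f t) : Pool.Agent.X255.RH.Indep V f := by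
  obtain ⟨z0, hz0⟩ := hne
  refine Pool.Agent.X255.RH.indep_of_aindepS fun P hP => h z0 hz0 P ?_
  filter_upwards [hV.mem_nhds hz0] with t ht using hP t ht

theorem isOpen_of_loc {S : Set ℂ} (hS : ∀ R : ℝ, (S ∩ Metric.closedBall 0 R).Finite) : IsOpen Sᶜ := by
  rw [isOpen_iff_mem_nhds]
  intro z hz
  have h1 : IsOpen (Metric.ball z 1 ∩ (S ∩ Metric.closedBall 0 (‖z‖ + 1))ᶜ) :=
    Metric.isOpen_ball.inter (hS _).isClosed.isOpen_compl
  refine Filter.mem_of_superset (h1.mem_nhds ⟨Metric.mem_ball_self one_pos, fun h => hz h.1⟩) ?_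
  rintro w ⟨hw1, hw2⟩ hw3
  refine hw2 ⟨hw3, ?_⟩
  rw [mem_closedBall_zero_iff]
  have h2 : ‖w - z‖ < 1 := by rwa [Metric.mem_ball, dist_eq_norm] at hw1
  have h3 : ‖w‖ ≤ ‖w - z‖ + ‖z‖ := by
    have := norm_add_le (w - z) z
    rwa [sub_add_cancel] at this
  linarith

theorem countable_of_loc {S : Set ℂ} (hS : ∀ R : ℝ, (S ∩ Metric.closedBall 0 R).Finite) : S.Countable := by
  have h1 : S = ⋃ n : ℕ, S ∩ Metric.closedBall 0 (n : ℝ) := by
    ext z
    simp only [Set.mem_iUnion, Set.mem_inter_iff, mem_closedBall_zero_iff]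
    constructor
    · intro hz
      obtain ⟨n, hn⟩ := exists_nat_ge ‖z‖
      exact ⟨n, hz, hn⟩
    · rintro ⟨_, hz, _⟩
      exact hz
  rw [h1]
  exact Set.countable_iUnion fun n => (hS n).countable

theorem conn_of_loc {S : Set ℂ} (hS : ∀ R : ℝ, (S ∩ Metric.closedBall 0 R).Finite) : IsConnected Sᶜ :=
  (countable_of_loc hS).isConnected_compl_of_one_lt_rank (by
    rw [Complex.rank_real_complex]
    norm_num)

/-- an entire function which is not constant takes a value only finitely often in a disc -/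
theorem fiber_finite {f : ℂ → ℂ} (hf : Differentiable ℂ f) {w : ℂ} (hne : ∃ z, f z ≠ w) (R : ℝ) :
    ({z | f z = w} ∩ Metric.closedBall 0 R).Finite := by
  by_contra hinf
  have hinf' : ({z | f z = w} ∩ Metric.closedBall 0 R).Infinite := hinf
  obtain ⟨x, -, hx⟩ := hinf'.exists_accPt_of_subset_isCompact (isCompact_closedBall (0 : ℂ) R) Set.inter_subset_right
  have h1 : ∃ᶠ z in 𝓝[≠] x, f z = w := by
    rw [accPt_iff_frequently_nhdsNE] at hx
    exact hx.mono fun z hz => hz.1
  have h2 : ∃ᶠ z in 𝓝[≠] x, (fun z => f z - w) z = 0 := h1.mono fun z hz => sub_eq_zero.2 hz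
  have h3 : AnalyticOnNhd ℂ (fun z => f z - w) Set.univ := fun z _ => (hf.analyticAt z).sub analyticAt_const
  have h4 := h3.eqOn_zero_of_preconnected_of_frequently_eq_zero isPreconnected_univ (Set.mem_univ x) h2
  obtain ⟨z, hz⟩ := hne
  exact hz (sub_eq_zero.1 (h4 (Set.mem_univ z)))

/-- the points at which entire functions, which are not constant, are in lattices form a locally finite set -/
theorem poles_finite {n q : ℕ} (Λ : Fin q → PeriodPair) (ty : Fin n → Fin q) {u : Fin n → ℂ → ℂ}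
    (hu : ∀ i, Differentiable ℂ (u i)) (hc : ∀ i b, ∃ z, u i z ≠ b) (R : ℝ) :
    ({z | ∀ i, u i z ∉ (Λ (ty i)).lattice}ᶜ ∩ Metric.closedBall 0 R).Finite := by
  have hb : ∀ i, ∃ M : ℝ, ∀ z ∈ Metric.closedBall (0 : ℂ) R, ‖u i z‖ ≤ M := fun i =>
    (isCompact_closedBall (0 : ℂ) R).exists_bound_of_continuousOn (hu i).continuous.continuousOn
  choose M hM using hb
  have hfin : ∀ i, (Metric.closedBall (0 : ℂ) (M i) ∩ ((Λ (ty i)).lattice : Set ℂ)).Finite := fun i =>
    Metric.finite_isBounded_inter_isClosed ⟨inferInstanceAs (DiscreteTopology (Λ (ty i)).lattice)⟩ Metric.isBounded_closedBall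
      (Λ (ty i)).isClosed_lattice
  have h1 : ({z | ∀ i, u i z ∉ (Λ (ty i)).lattice}ᶜ ∩ Metric.closedBall 0 R) ⊆
      ⋃ i : Fin n, ⋃ w ∈ Metric.closedBall (0 : ℂ) (M i) ∩ ((Λ (ty i)).lattice : Set ℂ),
        ({z : ℂ | u i z = w} ∩ Metric.closedBall 0 R) := by
    rintro z ⟨hz1, hz2⟩
    have hz1' : ¬ ∀ i, u i z ∉ (Λ (ty i)).lattice := hz1
    push Not at hz1'
    obtain ⟨i, hi⟩ := hz1'
    simp only [Set.mem_iUnion]
    refine ⟨i, u i z, ⟨?_, hi⟩, rfl, hz2⟩
    rw [mem_closedBall_zero_iff]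
    exact hM i z hz2
  refine Set.Finite.subset ?_ h1
  exact Set.finite_iUnion fun i => Set.Finite.biUnion (hfin i) fun w _ => fiber_finite (hu i) (hc i w) R

/-- an entire function which is constant on a nonempty open set is constant -/
theorem eq_const {f : ℂ → ℂ} (hf : Differentiable ℂ f) {V : Set ℂ} (hV : IsOpen V) (hne : V.Nonempty) {b : ℂ}
    (h : ∀ z ∈ V, f z = b) (z : ℂ) : f z = b := by
  obtain ⟨x, hx⟩ := hne
  have h3 : AnalyticOnNhd ℂ (fun z => f z - b) Set.univ := fun z _ => (hf.analyticAt z).sub analyticAt_const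
  have h4 := h3.eqOn_zero_of_preconnected_of_eventuallyEq_zero isPreconnected_univ (Set.mem_univ x) (by
    filter_upwards [hV.mem_nhds hx] with z hz
    exact sub_eq_zero.2 (h z hz))
  exact sub_eq_zero.1 (h4 (Set.mem_univ z))

end Pool.Agent.H46AR
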